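import Mathlib

set_option autoImplicit false
open MeasureTheory Set Filter Topology Metric
open scoped RealInnerProductSpace ENNReal NNReal Pointwise

namespace Pool.Agent.V5helper80.Klam

abbrev E := EuclideanSpace ℝ (Fin 2)

variable {K : Set E} {u v : E}

/-- norm in an orthonormal pair -/
lemma norm_comb (hu : ‖u‖ = 1) (hv : ‖v‖ = 1) (huv : ⟪u, v⟫ = 0) (a b : ℝ) :
    ‖a • u + b • v‖ = √(a ^ 2 + b ^ 2) := by
  rw [← Real.sqrt_sq (norm_nonneg (a • u + b • v))]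
  congr 1
  rw [← real_inner_self_eq_norm_sq, inner_add_left, inner_add_right, inner_add_right]
  simp only [inner_smul_left, inner_smul_right, real_inner_self_eq_norm_sq, hu, hv, huv,
    real_inner_comm u v]
  simp
  ring

/-- the difference quotient of the parametrisation -/
noncomputable def Phi (q : ℝ × ℝ × ℝ × ℝ) : ℝ :=
  √(q.1 ^ 2 + (q.2.2.1 - q.2.1 * q.1) ^ 2) / (q.2.2.1 * q.2.2.2)

lemma dist_param (hu : ‖u‖ = 1) (hv : ‖v‖ = 1) (huv : ⟪u, v⟫ = 0) {t₁ t₂ g₁ g₂ : ℝ}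
    (h1 : 0 < g₁) (h2 : 0 < g₂) (ht : t₁ < t₂) :
    dist (g₁⁻¹ • (u + t₁ • v)) (g₂⁻¹ • (u + t₂ • v)) =
      Phi ((g₂ - g₁) / (t₂ - t₁), t₁, g₁, g₂) * (t₂ - t₁) := by
  have ht' : 0 < t₂ - t₁ := sub_pos.2 ht
  rw [dist_comm, dist_eq_norm]
  have e : g₂⁻¹ • (u + t₂ • v) - g₁⁻¹ • (u + t₁ • v) =
      (g₂⁻¹ - g₁⁻¹) • u + (t₂ * g₂⁻¹ - t₁ * g₁⁻¹) • v := by
    module
  rw [e, norm_comb hu hv huv, Phi]
  dsimp only
  have e2 : (g₂⁻¹ - g₁⁻¹) ^ 2 + (t₂ * g₂⁻¹ - t₁ * g₁⁻¹) ^ 2 =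
      (((g₂ - g₁) / (t₂ - t₁)) ^ 2 + (g₁ - t₁ * ((g₂ - g₁) / (t₂ - t₁))) ^ 2) *
        ((t₂ - t₁) / (g₁ * g₂)) ^ 2 := by
    field_simp
    ring
  rw [e2, Real.sqrt_mul' _ (sq_nonneg _), Real.sqrt_sq (by positivity)]
  field_simp

lemma conv_gauge (hK : Convex ℝ K) (h0 : K ∈ 𝓝 (0 : E)) (u v : E) :
    ConvexOn ℝ univ (fun t : ℝ => gauge K (u + t • v)) := by
  refine ⟨convex_univ, fun x _ y _ a b ha hb hab => ?_⟩
  have e : u + (a • x + b • y) • v = a • (u + x • v) + b • (u + y • v) := by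
    have : u = (a + b) • u := by rw [hab, one_smul]
    nth_rewrite 1 [this]
    module
  change gauge K (u + (a • x + b • y) • v) ≤ a • gauge K (u + x • v) + b • gauge K (u + y • v)
  rw [e]
  refine (gauge_add_le hK (absorbent_nhds_zero h0) _ _).trans ?_
  rw [gauge_smul_of_nonneg ha, gauge_smul_of_nonneg hb]

lemma g_pos (h0 : K ∈ 𝓝 (0 : E)) (hb : Bornology.IsBounded K) {x : E} (hx : x ≠ 0) :
    0 < gauge K x :=
  (gauge_pos (absorbent_nhds_zero h0) ((NormedSpace.isVonNBounded_iff ℝ).2 hb)).2 hx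

lemma ne_zero_comb (hv : ‖v‖ = 1) (hu : ‖u‖ = 1) (huv : ⟪u, v⟫ = 0) (t : ℝ) : u + t • v ≠ 0 := by
  intro h
  have := norm_comb hu hv huv 1 t
  rw [one_smul, h, norm_zero] at this
  have h2 : (0 : ℝ) < √(1 ^ 2 + t ^ 2) := by positivity
  linarith

/-- the open sector between the directions `u` and `u + τ v` -/
def sec (u v : E) (τ : ℝ) : Set E := {x | 0 < ⟪x, v⟫} ∩ {x | 0 < ⟪x, τ • u - v⟫}

lemma sec_eq (hK : Convex ℝ K) (h0 : K ∈ 𝓝 (0 : E)) (hb : Bornology.IsBounded K)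
    (hu : ‖u‖ = 1) (hv : ‖v‖ = 1) (huv : ⟪u, v⟫ = 0)
    (hexp : ∀ x : E, x = ⟪x, u⟫ • u + ⟪x, v⟫ • v) {τ : ℝ} (hτ : 0 < τ) :
    frontier K ∩ sec u v τ =
      (fun t : ℝ => (gauge K (u + t • v))⁻¹ • (u + t • v)) '' Ioo 0 τ := by
  have hvu : ⟪v, u⟫ = 0 := by rw [real_inner_comm]; exact huv
  ext x
  constructor
  · rintro ⟨hx, h1, h2⟩
    rw [← gauge_eq_one_iff_mem_frontier hK h0] at hx
    simp only [mem_ofPred_eq] at h1 h2
    have h2' : ⟪x, v⟫ < τ * ⟪x, u⟫ := by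
      rw [inner_sub_right, inner_smul_right] at h2
      linarith
    have ha : 0 < ⟪x, u⟫ := by
      exact (mul_pos_iff_of_pos_left hτ).1 (h1.trans h2')
    refine ⟨⟪x, v⟫ / ⟪x, u⟫, ⟨by positivity, by rw [div_lt_iff₀ ha]; exact h2'⟩, ?_⟩
    have e : x = ⟪x, u⟫ • (u + (⟪x, v⟫ / ⟪x, u⟫) • v) := by
      rw [smul_add, smul_smul, mul_div_cancel₀ _ ha.ne']
      exact hexp x
    have hg : gauge K (u + (⟪x, v⟫ / ⟪x, u⟫) • v) = ⟪x, u⟫⁻¹ := by
      have : gauge K x = ⟪x, u⟫ * gauge K (u + (⟪x, v⟫ / ⟪x, u⟫) • v) := by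
        conv_lhs => rw [e]
        rw [gauge_smul_of_nonneg ha.le]; rfl
      rw [hx] at this
      exact (eq_inv_of_mul_eq_one_right this.symm)
    dsimp only
    rw [hg, inv_inv]
    exact e.symm
  · rintro ⟨t, ⟨ht0, htτ⟩, rfl⟩
    have hpos : 0 < gauge K (u + t • v) := g_pos h0 hb (ne_zero_comb hv hu huv t)
    refine ⟨?_, ?_, ?_⟩
    · rw [← gauge_eq_one_iff_mem_frontier hK h0]
      dsimp only
      rw [gauge_smul_of_nonneg (by positivity)]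
      exact inv_mul_cancel₀ hpos.ne'
    · simp only [mem_ofPred_eq, inner_smul_left, inner_add_left, huv, real_inner_self_eq_norm_sq, hv]
      simp
      positivity
    · simp only [mem_ofPred_eq, inner_smul_left, inner_add_left, inner_sub_right, inner_smul_right,
        huv, hvu, real_inner_self_eq_norm_sq, hv, hu]
      simp only [conj_trivial]
      have : 0 < τ - t := by linarith
      have h3 : (gauge K (u + t • v))⁻¹ * (τ * 1 ^ 2 - 0 + t * (τ * 0 - 1 ^ 2)) =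
        (gauge K (u + t • v))⁻¹ * (τ - t) := by ring
      have h4 : 0 < (gauge K (u + t • v))⁻¹ * (τ - t) := by positivity
      nlinarith [h3, h4]

end Pool.Agent.V5helper80.Klam
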