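import Pool.Agent.V5helper80.KlamA

set_option autoImplicit false
open MeasureTheory Set Filter Topology Metric
open scoped RealInnerProductSpace ENNReal NNReal Pointwise

namespace Pool.Agent.V5helper80.Klam

variable {K : Set E} {u v : E}

lemma contPhi {D g : ℝ} (hg : 0 < g) : ContinuousAt Phi (D, 0, g, g) := by
  unfold Phi
  refine ContinuousAt.div ?_ ?_ ?_
  · fun_prop
  · fun_prop
  · dsimp only
    positivity

lemma slope_bounds {G : ℝ → ℝ} (hG : ConvexOn ℝ univ G) {D : ℝ}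
    (hD : HasDerivWithinAt G D (Ioi 0) 0) {t₁ t₂ τ : ℝ} (h0 : 0 < t₁) (h12 : t₁ < t₂) (h2 : t₂ < τ) :
    D ≤ (G t₂ - G t₁) / (t₂ - t₁) ∧ (G t₂ - G t₁) / (t₂ - t₁) ≤ (G (2 * τ) - G τ) / τ := by
  have hτ : 0 < τ := by linarith
  constructor
  · have a := hG.le_slope_of_hasDerivWithinAt_Ioi (mem_univ (0:ℝ)) (mem_univ t₁) h0 hD
    have b := hG.slope_mono_adjacent (mem_univ (0:ℝ)) (mem_univ t₂) h0 h12
    rw [slope_def_field] at a
    exact a.trans b
  · have a := hG.slope_mono_adjacent (mem_univ t₁) (mem_univ τ) h12 h2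
    have b := hG.slope_mono_adjacent (mem_univ t₂) (mem_univ (2 * τ)) h2 (by linarith)
    have e : 2 * τ - τ = τ := by ring
    rw [e] at b
    exact a.trans b

lemma tendsto_slope2 {G : ℝ → ℝ} {D : ℝ} (hD : HasDerivWithinAt G D (Ioi 0) 0) :
    Tendsto (fun τ : ℝ => (G (2 * τ) - G τ) / τ) (𝓝[>] 0) (𝓝 D) := by
  have h1 : Tendsto (fun t : ℝ => (G t - G 0) / t) (𝓝[>] 0) (𝓝 D) := by
    have := (hasDerivWithinAt_iff_tendsto_slope' (self_notMem_Ioi)).mp hD
    refine this.congr (fun t => ?_)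
    rw [slope_def_field, sub_zero]
  have h2 : Tendsto (fun t : ℝ => 2 * t) (𝓝[>] 0) (𝓝[>] 0) := by
    refine tendsto_nhdsWithin_iff.2 ⟨?_, ?_⟩
    · have : Tendsto (fun t : ℝ => 2 * t) (𝓝 0) (𝓝 (2 * 0)) := by
        exact (continuous_const.mul continuous_id).tendsto 0
      rw [mul_zero] at this
      exact this.mono_left nhdsWithin_le_nhds
    · filter_upwards [self_mem_nhdsWithin] with t ht
      simp only [mem_Ioi] at ht ⊢
      positivity
  have h3 : Tendsto (fun t : ℝ => 2 * ((G (2 * t) - G 0) / (2 * t)) - (G t - G 0) / t) (𝓝[>] 0)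
      (𝓝 (2 * D - D)) := ((h1.comp h2).const_mul 2).sub h1
  have e : 2 * D - D = D := by ring
  rw [e] at h3
  refine h3.congr' ?_
  filter_upwards [self_mem_nhdsWithin] with t ht
  simp only [mem_Ioi] at ht
  field_simp
  ring

lemma upper (hK : Convex ℝ K) (h0 : K ∈ 𝓝 (0 : E)) (hb : Bornology.IsBounded K)
    (hu : ‖u‖ = 1) (hv : ‖v‖ = 1) (huv : ⟪u, v⟫ = 0)
    (hexp : ∀ x : E, x = ⟪x, u⟫ • u + ⟪x, v⟫ • v) {D : ℝ}
    (hD : HasDerivWithinAt (fun t : ℝ => gauge K (u + t • v)) D (Ioi 0) 0) {ε : ℝ} (hε : 0 < ε) :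
    ∀ᶠ τ in 𝓝[>] (0 : ℝ), μH[1] (frontier K ∩ sec u v τ) ≤
      ENNReal.ofReal ((Phi (D, 0, gauge K u, gauge K u) + ε) * τ) := by
  set G : ℝ → ℝ := fun t => gauge K (u + t • v) with hGdef
  have hG0 : G 0 = gauge K u := by simp [hGdef]
  have hconv : ConvexOn ℝ univ G := conv_gauge hK h0 u v
  have hpos : ∀ t, 0 < G t := fun t => g_pos h0 hb (ne_zero_comb hv hu huv t)
  have hcont : Continuous G := by
    have := continuous_gauge hK h0
    exact this.comp (by fun_prop)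
  rw [← hG0]
  set ℓ := Phi (D, 0, G 0, G 0) with hℓ
  have hP : ContinuousAt Phi (D, 0, G 0, G 0) := contPhi (hpos 0)
  obtain ⟨δ, hδ, hδ'⟩ := Metric.continuousAt_iff.1 hP ε hε
  have e1 : ∀ᶠ τ in 𝓝[>] (0 : ℝ), (G (2 * τ) - G τ) / τ < D + δ :=
    (tendsto_slope2 hD).eventually (gt_mem_nhds (by linarith))
  have e2 : ∀ᶠ τ in 𝓝[>] (0 : ℝ), τ < δ :=
    (gt_mem_nhds hδ : ∀ᶠ τ in 𝓝 (0 : ℝ), τ < δ).filter_mono nhdsWithin_le_nhds
  obtain ⟨η, hη, hη'⟩ := Metric.continuous_iff.1 hcont 0 δ hδ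
  have e3 : ∀ᶠ τ in 𝓝[>] (0 : ℝ), τ < η :=
    (gt_mem_nhds hη : ∀ᶠ τ in 𝓝 (0 : ℝ), τ < η).filter_mono nhdsWithin_le_nhds
  filter_upwards [e1, e2, e3, self_mem_nhdsWithin] with τ h1 h2 h3 hτ
  simp only [mem_Ioi] at hτ
  rw [sec_eq hK h0 hb hu hv huv hexp hτ]
  have hℓ0 : 0 ≤ ℓ := by
    rw [hℓ, Phi]
    have := hpos 0
    positivity
  have key : ∀ t₁ t₂ : ℝ, 0 < t₁ → t₁ < t₂ → t₂ < τ →
      dist ((G t₁)⁻¹ • (u + t₁ • v)) ((G t₂)⁻¹ • (u + t₂ • v)) ≤ (ℓ + ε) * (t₂ - t₁) := by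
    intro t₁ t₂ ht1 ht12 ht2
    rw [dist_param hu hv huv (hpos t₁) (hpos t₂) ht12]
    refine mul_le_mul_of_nonneg_right ?_ (by linarith)
    obtain ⟨s1, s2⟩ := slope_bounds hconv hD ht1 ht12 ht2
    have hclose : dist ((G t₂ - G t₁) / (t₂ - t₁), t₁, G t₁, G t₂) (D, 0, G 0, G 0) < δ := by
      rw [Prod.dist_eq, Prod.dist_eq, Prod.dist_eq]
      refine max_lt ?_ (max_lt ?_ (max_lt ?_ ?_))
      · rw [Real.dist_eq, abs_lt]
        constructor <;> linarith
      · rw [Real.dist_eq, abs_lt]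
        constructor <;> simp <;> linarith
      · exact hη' t₁ (by rw [Real.dist_eq, abs_lt]; constructor <;> linarith)
      · exact hη' t₂ (by rw [Real.dist_eq, abs_lt]; constructor <;> linarith)
    have := hδ' hclose
    rw [Real.dist_eq, abs_lt] at this
    linarith [this.2]
  have hlip : LipschitzOnWith (Real.toNNReal (ℓ + ε))
      (fun t : ℝ => (G t)⁻¹ • (u + t • v)) (Ioo 0 τ) := by
    refine LipschitzOnWith.of_dist_le_mul ?_
    intro x hx y hy
    rw [Real.coe_toNNReal _ (by linarith)]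
    rcases lt_trichotomy x y with hxy | hxy | hxy
    · have := key x y hx.1 hxy hy.2
      rw [Real.dist_eq, abs_of_neg (by linarith)]
      simpa using this
    · subst hxy
      simp
    · have := key y x hy.1 hxy hx.2
      rw [Real.dist_eq, abs_of_pos (by linarith), dist_comm]
      simpa using this
  have h4 := hlip.hausdorffMeasure_image_le (d := 1) zero_le_one
  refine h4.trans (le_of_eq ?_)
  rw [hausdorffMeasure_real, Real.volume_Ioo, ENNReal.rpow_one, sub_zero,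
    ENNReal.ofReal_mul (by linarith)]
  rfl

lemma lower (hK : Convex ℝ K) (h0 : K ∈ 𝓝 (0 : E)) (hb : Bornology.IsBounded K)
    (hu : ‖u‖ = 1) (hv : ‖v‖ = 1) (huv : ⟪u, v⟫ = 0)
    (hexp : ∀ x : E, x = ⟪x, u⟫ • u + ⟪x, v⟫ • v) {D : ℝ}
    (hD : HasDerivWithinAt (fun t : ℝ => gauge K (u + t • v)) D (Ioi 0) 0) {ε : ℝ} (hε : 0 < ε) :
    ∀ᶠ τ in 𝓝[>] (0 : ℝ),
      ENNReal.ofReal ((Phi (D, 0, gauge K u, gauge K u) - ε) * τ) ≤
        μH[1] (frontier K ∩ sec u v τ) := by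
  set G : ℝ → ℝ := fun t => gauge K (u + t • v) with hGdef
  have hG0 : G 0 = gauge K u := by simp [hGdef]
  have hpos : ∀ t, 0 < G t := fun t => g_pos h0 hb (ne_zero_comb hv hu huv t)
  have hcont : Continuous G := by
    have := continuous_gauge hK h0
    exact this.comp (by fun_prop)
  rw [← hG0]
  set ℓ := Phi (D, 0, G 0, G 0) with hℓ
  have hP : ContinuousAt Phi (D, 0, G 0, G 0) := contPhi (hpos 0)
  have hsl : Tendsto (fun t : ℝ => (G t - G 0) / t) (𝓝[>] 0) (𝓝 D) := by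
    have := (hasDerivWithinAt_iff_tendsto_slope' (self_notMem_Ioi)).mp hD
    refine this.congr (fun t => ?_)
    rw [slope_def_field, sub_zero]
  have ht : Tendsto (fun τ : ℝ => Phi ((G τ - G 0) / (τ - 0), 0, G 0, G τ)) (𝓝[>] 0) (𝓝 ℓ) := by
    refine hP.tendsto.comp ?_
    refine Tendsto.prodMk_nhds ?_ (Tendsto.prodMk_nhds tendsto_const_nhds
      (Tendsto.prodMk_nhds tendsto_const_nhds ?_))
    · simpa using hsl
    · exact (hcont.tendsto 0).mono_left nhdsWithin_le_nhds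
  have e1 := ht.eventually (lt_mem_nhds (show ℓ - ε < ℓ by linarith))
  filter_upwards [e1, self_mem_nhdsWithin] with τ h1 hτ
  simp only [mem_Ioi] at hτ
  rw [sec_eq hK h0 hb hu hv huv hexp hτ]
  set p : ℝ → E := fun t : ℝ => (G t)⁻¹ • (u + t • v) with hp
  have hpc : Continuous p := by
    have h1 : Continuous fun t => (G t)⁻¹ := hcont.inv₀ (fun t => (hpos t).ne')
    exact h1.smul (by fun_prop)
  have hd : dist (p 0) (p τ) = Phi ((G τ - G 0) / (τ - 0), 0, G 0, G τ) * (τ - 0) :=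
    dist_param hu hv huv (hpos 0) (hpos τ) hτ
  rw [sub_zero τ] at hd h1
  have hdle : (ℓ - ε) * τ ≤ dist (p 0) (p τ) := by
    rw [hd]
    exact mul_le_mul_of_nonneg_right h1.le hτ.le
  set d := dist (p 0) (p τ) with hdd
  refine (ENNReal.ofReal_le_ofReal hdle).trans ?_
  rcases eq_or_lt_of_le (dist_nonneg : 0 ≤ dist (p 0) (p τ)) with h5 | h5
  · rw [hdd, ← h5]
    simp
  -- project to the chord
  set w : E := d⁻¹ • (p τ - p 0) with hw
  have hwn : ‖w‖ = 1 := by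
    rw [hw, norm_smul, norm_inv, Real.norm_eq_abs, abs_of_pos h5, ← dist_eq_norm, dist_comm (p τ)]
    exact inv_mul_cancel₀ h5.ne'
  let f : E → ℝ := fun x => ⟪x - p 0, w⟫
  have hf : LipschitzWith 1 f := by
    refine LipschitzWith.of_dist_le_mul (fun x y => ?_)
    rw [Real.dist_eq]
    have : f x - f y = ⟪x - y, w⟫ := by
      simp only [f]
      rw [← inner_sub_left]
      congr 1
      abel
    rw [this, NNReal.coe_one, one_mul, dist_eq_norm]
    refine (abs_real_inner_le_norm _ _).trans ?_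
    rw [hwn, mul_one]
  have hf0 : f (p 0) = 0 := by simp [f]
  have hfτ : f (p τ) = d := by
    simp only [f]
    rw [hw, inner_smul_right, real_inner_self_eq_norm_sq, ← dist_eq_norm, dist_comm (p τ)]
    rw [← hdd]
    field_simp
  have hsub : Ioo 0 d ⊆ f '' (p '' Ioo 0 τ) := by
    have hc : ContinuousOn (fun t => f (p t)) (Icc 0 τ) :=
      (hf.continuous.comp hpc).continuousOn
    have := intermediate_value_Ioo hτ.le hc
    simp only [hf0, hfτ] at this
    refine this.trans ?_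
    rintro _ ⟨t, ht, rfl⟩
    exact ⟨p t, ⟨t, ht, rfl⟩, rfl⟩
  have h6 := hf.hausdorffMeasure_image_le (d := 1) zero_le_one (p '' Ioo 0 τ)
  rw [ENNReal.coe_one, ENNReal.one_rpow, one_mul] at h6
  refine le_trans ?_ h6
  have h7 : μH[1] (Ioo (0:ℝ) d) ≤ μH[1] (f '' (p '' Ioo 0 τ)) := measure_mono hsub
  refine le_trans (le_of_eq ?_) h7
  rw [hausdorffMeasure_real, Real.volume_Ioo, sub_zero]

end Pool.Agent.V5helper80.Klam
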