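import Pool.Agent.V5helper80.KlamB

set_option autoImplicit false
open MeasureTheory Set Filter Topology Metric
open scoped RealInnerProductSpace ENNReal NNReal Pointwise

namespace Pool.Agent.V5helper80.Klam

variable {K : Set E} {u v : E}

/-- rotation by a right angle -/
noncomputable def rot (u : E) : E := !₂[-u 1, u 0]

lemma inner_eq (x y : E) : ⟪x, y⟫ = x 0 * y 0 + x 1 * y 1 := by
  rw [PiLp.inner_apply, Fin.sum_univ_two]
  simp [mul_comm]

lemma norm_sq_eq (x : E) : ‖x‖ ^ 2 = x 0 ^ 2 + x 1 ^ 2 := by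
  rw [← real_inner_self_eq_norm_sq, inner_eq]; ring

@[simp] lemma rot0 (u : E) : rot u 0 = -u 1 := rfl
@[simp] lemma rot1 (u : E) : rot u 1 = u 0 := rfl

lemma norm_rot (u : E) : ‖rot u‖ = ‖u‖ := by
  have : ‖rot u‖ ^ 2 = ‖u‖ ^ 2 := by
    rw [norm_sq_eq, norm_sq_eq]; simp; ring
  exact (sq_eq_sq₀ (norm_nonneg _) (norm_nonneg _)).1 this

lemma inner_rot (u : E) : ⟪u, rot u⟫ = 0 := by
  rw [inner_eq]; simp; ring

lemma expand (hu : ‖u‖ = 1) (x : E) : x = ⟪x, u⟫ • u + ⟪x, rot u⟫ • rot u := by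
  have h := norm_sq_eq u
  rw [hu] at h
  have h' : u 0 ^ 2 + u 1 ^ 2 = 1 := by linarith
  ext i
  fin_cases i
  · simp only [inner_eq]
    simp
    linear_combination (-x 0) * h'
  · simp only [inner_eq]
    simp
    linear_combination (-x 1) * h'

lemma expand' (hu : ‖u‖ = 1) (x : E) : x = ⟪x, u⟫ • u + ⟪x, -rot u⟫ • (-rot u) := by
  rw [inner_neg_right, smul_neg, neg_smul, neg_neg]
  exact expand hu x

/-- The boundary has finite length. -/
lemma finite_length (hK : Convex ℝ K) (h0 : K ∈ 𝓝 (0 : E)) (hb : Bornology.IsBounded K) :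
    μH[1] (frontier K) < ∞ := by
  let c : ℝ → E := fun θ => !₂[Real.cos θ, Real.sin θ]
  have hc0 : ∀ θ, c θ 0 = Real.cos θ := fun _ => rfl
  have hc1 : ∀ θ, c θ 1 = Real.sin θ := fun _ => rfl
  have hcn : ∀ θ, ‖c θ‖ = 1 := fun θ => by
    have : ‖c θ‖ ^ 2 = 1 := by
      rw [norm_sq_eq, hc0, hc1]; exact Real.cos_sq_add_sin_sq θ
    nlinarith [norm_nonneg (c θ), this]
  have hcl : ∀ a b, dist (c a) (c b) ≤ 2 * |a - b| := by
    intro a b
    rw [dist_eq_norm]
    have h1 : ‖c a - c b‖ ^ 2 = (Real.cos a - Real.cos b) ^ 2 + (Real.sin a - Real.sin b) ^ 2 := by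
      rw [norm_sq_eq]; rfl
    have h2 : |Real.cos a - Real.cos b| ≤ |a - b| := by
      have := Real.lipschitzWith_cos.dist_le_mul a b
      simpa [Real.dist_eq] using this
    have h3 : |Real.sin a - Real.sin b| ≤ |a - b| := by
      have := Real.lipschitzWith_sin.dist_le_mul a b
      simpa [Real.dist_eq] using this
    have h4 : (Real.cos a - Real.cos b) ^ 2 ≤ |a - b| ^ 2 := by
      rw [← sq_abs]; exact pow_le_pow_left₀ (abs_nonneg _) h2 2
    have h5 : (Real.sin a - Real.sin b) ^ 2 ≤ |a - b| ^ 2 := by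
      rw [← sq_abs (Real.sin a - Real.sin b)]; exact pow_le_pow_left₀ (abs_nonneg _) h3 2
    have h6 : ‖c a - c b‖ ^ 2 ≤ (2 * |a - b|) ^ 2 := by
      rw [h1]; nlinarith [sq_nonneg |a - b|]
    exact (abs_le_of_sq_le_sq' h6 (by positivity)).2
  obtain ⟨L, hL⟩ := hK.lipschitz_gauge h0
  have hne : ∀ θ, c θ ≠ 0 := fun θ h => by
    have := hcn θ; rw [h, norm_zero] at this; exact zero_ne_one this
  set h : ℝ → ℝ := fun θ => gauge K (c θ) with hh
  have hpos : ∀ θ, 0 < h θ := fun θ => g_pos h0 hb (hne θ)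
  have hccont : Continuous c := by
    have : LipschitzWith 2 c := by
      refine LipschitzWith.of_dist_le_mul fun a b => ?_
      rw [Real.dist_eq]; exact_mod_cast hcl a b
    exact this.continuous
  have hcont : Continuous h := (continuous_gauge hK h0).comp hccont
  -- lower bound on the compact circle of angles
  obtain ⟨θ₀, -, hθ₀⟩ := isCompact_Icc.exists_isMinOn (nonempty_Icc.2 (by
    linarith [Real.pi_pos] : (-Real.pi : ℝ) ≤ Real.pi)) hcont.continuousOn
  set m := h θ₀ with hm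
  have hm0 : 0 < m := hpos θ₀
  have hmle : ∀ θ ∈ Icc (-Real.pi) Real.pi, m ≤ h θ := fun θ hθ => hθ₀ hθ
  let q : ℝ → E := fun θ => (h θ)⁻¹ • c θ
  have hql : ∀ a ∈ Icc (-Real.pi) Real.pi, ∀ b ∈ Icc (-Real.pi) Real.pi,
      dist (q a) (q b) ≤ (2 * L / m ^ 2 + 2 / m) * |a - b| := by
    intro a ha b hb'
    have e : q a - q b = ((h a)⁻¹ - (h b)⁻¹) • c a + (h b)⁻¹ • (c a - c b) := by
      simp only [q]; module
    rw [dist_eq_norm, e]
    refine (norm_add_le _ _).trans ?_
    rw [norm_smul, norm_smul, hcn, mul_one, ← dist_eq_norm (c a)]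
    have hab : |h a - h b| ≤ L * (2 * |a - b|) := by
      have h1 := hL.dist_le_mul (c a) (c b)
      rw [Real.dist_eq] at h1
      exact h1.trans (mul_le_mul_of_nonneg_left (hcl a b) L.2)
    have h2 : ‖(h a)⁻¹ - (h b)⁻¹‖ ≤ L * (2 * |a - b|) / m ^ 2 := by
      rw [Real.norm_eq_abs]
      have e2 : (h a)⁻¹ - (h b)⁻¹ = (h b - h a) / (h a * h b) := by
        have := (hpos a).ne'; have := (hpos b).ne'
        field_simp
      rw [e2, abs_div, abs_sub_comm, abs_of_pos (mul_pos (hpos a) (hpos b))]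
      have h3 : m ^ 2 ≤ h a * h b := by
        rw [sq]; exact mul_le_mul (hmle a ha) (hmle b hb') hm0.le (hpos a).le
      gcongr
    have h4 : ‖(h b)⁻¹‖ * dist (c a) (c b) ≤ m⁻¹ * (2 * |a - b|) := by
      rw [norm_inv, Real.norm_eq_abs, abs_of_pos (hpos b)]
      refine mul_le_mul ?_ (hcl a b) dist_nonneg (by positivity)
      exact inv_anti₀ hm0 (hmle b hb')
    refine (add_le_add h2 h4).trans (le_of_eq ?_)
    field_simp
  have hlip : LipschitzOnWith (Real.toNNReal (2 * L / m ^ 2 + 2 / m)) q (Icc (-Real.pi) Real.pi) := by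
    refine LipschitzOnWith.of_dist_le_mul fun a ha b hb' => ?_
    rw [Real.coe_toNNReal _ (by positivity), Real.dist_eq]
    exact hql a ha b hb'
  have h1 := hlip.hausdorffMeasure_image_le (d := 1) zero_le_one
  have hsub : frontier K ⊆ q '' Icc (-Real.pi) Real.pi := by
    intro x hx
    rw [← gauge_eq_one_iff_mem_frontier hK h0] at hx
    have hx0 : x ≠ 0 := by
      rintro rfl
      rw [gauge_zero] at hx; exact zero_ne_one hx
    let z : ℂ := ⟨x 0, x 1⟩
    have hz : ‖z‖ = ‖x‖ := by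
      have : ‖z‖ ^ 2 = ‖x‖ ^ 2 := by
        rw [norm_sq_eq, ← Complex.normSq_eq_norm_sq, Complex.normSq_apply]; simp [z]; ring
      exact (sq_eq_sq₀ (norm_nonneg _) (norm_nonneg _)).1 this
    have hz0 : z ≠ 0 := by
      rw [← norm_pos_iff, hz]; exact norm_pos_iff.2 hx0
    refine ⟨Complex.arg z, ⟨(Complex.neg_pi_lt_arg z).le, Complex.arg_le_pi z⟩, ?_⟩
    have e : x = ‖x‖ • c (Complex.arg z) := by
      ext i
      fin_cases i
      · change x 0 = ‖x‖ * Real.cos (Complex.arg z)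
        rw [Complex.cos_arg hz0, hz]
        field_simp [norm_ne_zero_iff.2 hx0]
        rfl
      · change x 1 = ‖x‖ * Real.sin (Complex.arg z)
        rw [Complex.sin_arg, hz]
        field_simp [norm_ne_zero_iff.2 hx0]
        rfl
    have e2 : h (Complex.arg z) = ‖x‖⁻¹ := by
      have : gauge K x = ‖x‖ * gauge K (c (Complex.arg z)) := by
        conv_lhs => rw [e]
        rw [gauge_smul_of_nonneg (norm_nonneg x)]; rfl
      rw [hx] at this
      exact (eq_inv_of_mul_eq_one_right this.symm)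
    change (h (Complex.arg z))⁻¹ • c (Complex.arg z) = x
    rw [e2, inv_inv]
    exact e.symm
  refine (measure_mono hsub).trans_lt (h1.trans_lt ?_)
  rw [hausdorffMeasure_real, Real.volume_Icc, ENNReal.rpow_one]
  exact ENNReal.mul_lt_top ENNReal.coe_lt_top ENNReal.ofReal_lt_top

/-- Lines through an interior point meet the curve in a set of length zero. -/
lemma line_null (hK : Convex ℝ K) (h0 : K ∈ 𝓝 (0 : E)) {n : E} (hn : n ≠ 0) :
    μH[1] (frontier K ∩ {x | ⟪x, n⟫ = 0}) = 0 := by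
  have := Measure.nullSingletonClass_hausdorff E (d := 1) one_pos
  set w : E := rot (‖n‖⁻¹ • n) with hw
  have hnn : ‖‖n‖⁻¹ • n‖ = 1 := by
    rw [norm_smul, norm_inv, norm_norm]; exact inv_mul_cancel₀ (norm_ne_zero_iff.2 hn)
  have hsub : frontier K ∩ {x | ⟪x, n⟫ = 0} ⊆
      {(gauge K w)⁻¹ • w, (gauge K (-w))⁻¹ • (-w)} := by
    rintro x ⟨hx, hx2⟩
    rw [← gauge_eq_one_iff_mem_frontier hK h0] at hx
    simp only [mem_ofPred_eq] at hx2
    have hexp := expand hnn x
    rw [inner_smul_right, hx2, mul_zero, zero_smul, zero_add, ← hw] at hexp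
    rcases lt_trichotomy 0 ⟪x, w⟫ with h | h | h
    · left
      have : gauge K x = ⟪x, w⟫ * gauge K w := by
        conv_lhs => rw [hexp]
        rw [gauge_smul_of_nonneg h.le]; rfl
      rw [hx] at this
      rw [eq_comm, ← eq_inv_of_mul_eq_one_left this.symm]
      exact hexp.symm
    · rw [← h, zero_smul] at hexp
      rw [hexp, gauge_zero] at hx
      exact absurd hx zero_ne_one
    · right
      have h' : 0 < -⟪x, w⟫ := by linarith
      have e : x = (-⟪x, w⟫) • (-w) := by rw [smul_neg, neg_smul, neg_neg]; exact hexp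
      have : gauge K x = (-⟪x, w⟫) * gauge K (-w) := by
        conv_lhs => rw [e]
        rw [gauge_smul_of_nonneg h'.le]; rfl
      rw [hx] at this
      rw [mem_singleton_iff, eq_comm, ← eq_inv_of_mul_eq_one_left this.symm]
      exact e.symm
  refine measure_mono_null hsub ?_
  exact ((Set.finite_singleton _).insert _).measure_zero _

/-- Opposite sectors carry the same length. -/
lemma sector_balance (hK : Convex ℝ K) (h0 : K ∈ 𝓝 (0 : E)) (hb : Bornology.IsBounded K)
    (hbis : ∀ n : E, n ≠ 0 → μH[1] (frontier K ∩ {x | 0 < ⟪x, n⟫}) =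
      μH[1] (frontier K ∩ {x | ⟪x, n⟫ < 0})) {n₁ n₂ : E} (h1 : n₁ ≠ 0) (h2 : n₂ ≠ 0) :
    μH[1] (frontier K ∩ ({x | 0 < ⟪x, n₁⟫} ∩ {x | 0 < ⟪x, n₂⟫})) =
      μH[1] (frontier K ∩ ({x | ⟪x, n₁⟫ < 0} ∩ {x | ⟪x, n₂⟫ < 0})) := by
  set μ : Measure E := (μH[1] : Measure E).restrict (frontier K) with hμ
  have hmeas : ∀ n : E, Measurable fun x : E => ⟪x, n⟫ := fun n => by
    have : Continuous fun x : E => ⟪x, n⟫ := by fun_prop
    exact this.measurable
  have mP : ∀ n : E, MeasurableSet {x : E | 0 < ⟪x, n⟫} := fun n =>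
    measurableSet_lt measurable_const (hmeas n)
  have mN : ∀ n : E, MeasurableSet {x : E | ⟪x, n⟫ < 0} := fun n =>
    measurableSet_lt (hmeas n) measurable_const
  have mZ : ∀ n : E, MeasurableSet {x : E | ⟪x, n⟫ = 0} := fun n =>
    measurableSet_eq_fun (hmeas n) measurable_const
  have app : ∀ s : Set E, MeasurableSet s → μ s = μH[1] (frontier K ∩ s) := fun s hs => by
    rw [hμ, Measure.restrict_apply hs, inter_comm]
  rw [← app _ ((mP n₁).inter (mP n₂)), ← app _ ((mN n₁).inter (mN n₂))]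
  have hb1 : ∀ n : E, n ≠ 0 → μ {x | 0 < ⟪x, n⟫} = μ {x | ⟪x, n⟫ < 0} := fun n hn => by
    rw [app _ (mP n), app _ (mN n)]; exact hbis n hn
  have hz : ∀ n : E, n ≠ 0 → μ {x | ⟪x, n⟫ = 0} = 0 := fun n hn => by
    rw [app _ (mZ n)]; exact line_null hK h0 hn
  have hfin : μ univ < ∞ := by
    rw [app _ MeasurableSet.univ, inter_univ]; exact finite_length hK h0 hb
  have hfin' : ∀ s, μ s ≠ ∞ := fun s => ((measure_mono (subset_univ s)).trans_lt hfin).ne
  -- splitting a set by a line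
  have split : ∀ (s : Set E) (n : E), n ≠ 0 → MeasurableSet s →
      μ s = μ (s ∩ {x | 0 < ⟪x, n⟫}) + μ (s ∩ {x | ⟪x, n⟫ < 0}) := by
    intro s n hn hs
    have e : s = (s ∩ {x | 0 < ⟪x, n⟫}) ∪ ((s ∩ {x | ⟪x, n⟫ < 0}) ∪ (s ∩ {x | ⟪x, n⟫ = 0})) := by
      ext x
      simp only [mem_union, mem_inter_iff, mem_ofPred_eq]
      constructor
      · intro hx
        rcases lt_trichotomy 0 ⟪x, n⟫ with h | h | h
        · exact Or.inl ⟨hx, h⟩
        · exact Or.inr (Or.inr ⟨hx, h.symm⟩)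
        · exact Or.inr (Or.inl ⟨hx, h⟩)
      · rintro (h | h | h) <;> exact h.1
    have hnull : μ (s ∩ {x | ⟪x, n⟫ = 0}) = 0 := measure_mono_null inter_subset_right (hz n hn)
    conv_lhs => rw [e]
    rw [measure_union]
    · congr 1
      refine le_antisymm ?_ (measure_mono subset_union_left)
      refine (measure_union_le _ _).trans ?_
      rw [hnull, add_zero]
    · rw [Set.disjoint_left]
      rintro x ⟨-, hx⟩ hx'
      simp only [mem_union, mem_inter_iff, mem_ofPred_eq] at hx hx'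
      rcases hx' with h | h <;> linarith [h.2]
    · exact (hs.inter (mN n)).union (hs.inter (mZ n))
  have t1 := split univ n₁ h1 MeasurableSet.univ
  have t2 := split univ n₂ h2 MeasurableSet.univ
  simp only [univ_inter] at t1 t2
  have a1 := split {x | 0 < ⟪x, n₁⟫} n₂ h2 (mP n₁)
  have a2 := split {x | ⟪x, n₂⟫ < 0} n₁ h1 (mN n₂)
  have b1 := hb1 n₁ h1
  have b2 := hb1 n₂ h2
  have f1 := hfin' {x | 0 < ⟪x, n₁⟫}
  have f2 := hfin' {x | ⟪x, n₂⟫ < 0}
  have hPN : μ {x | 0 < ⟪x, n₁⟫} = μ {x | ⟪x, n₂⟫ < 0} := by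
    rw [← b1] at t1
    rw [b2] at t2
    rw [t1] at t2
    have h2' : (2 : ℝ≥0∞) * μ {x | 0 < ⟪x, n₁⟫} = 2 * μ {x | ⟪x, n₂⟫ < 0} := by
      rw [two_mul, two_mul]; exact t2
    exact (ENNReal.mul_right_inj (by norm_num) (by norm_num)).1 h2'
  rw [a1, a2, inter_comm {x | ⟪x, n₂⟫ < 0} {x | 0 < ⟪x, n₁⟫}, add_comm] at hPN
  have := (ENNReal.add_right_inj (hfin' _)).1 hPN
  rw [this, inter_comm]

end Pool.Agent.V5helper80.Klam
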