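import Pool.Agent.V5helper80.KlamC

set_option autoImplicit false
open MeasureTheory Set Filter Topology Metric
open scoped RealInnerProductSpace ENNReal NNReal Pointwise

namespace Pool.Agent.V5helper80.Klam

variable {K : Set E} {u v : E}

lemma phi_eq (D g : ℝ) : Phi (D, 0, g, g) = √(D ^ 2 + g ^ 2) / g ^ 2 := by
  rw [Phi]; dsimp only
  rw [zero_mul, sub_zero, sq g]

lemma algebra_neg {D F g l : ℝ} (hg : 0 < g) (hl : 1 < l)
    (h : √(D ^ 2 + g ^ 2) / g ^ 2 = √(F ^ 2 + (l * g) ^ 2) / (l * g) ^ 2) (hle : F ≤ l * D) :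
    F < 0 := by
  have hl0 : 0 < l := by linarith
  have h2 : (√(D ^ 2 + g ^ 2) / g ^ 2) ^ 2 = (√(F ^ 2 + (l * g) ^ 2) / (l * g) ^ 2) ^ 2 := by rw [h]
  rw [div_pow, div_pow, Real.sq_sqrt (by positivity), Real.sq_sqrt (by positivity),
    div_eq_div_iff (by positivity) (by positivity)] at h2
  have h3 : F ^ 2 = l ^ 4 * D ^ 2 + l ^ 2 * (l ^ 2 - 1) * g ^ 2 := by
    have h4 : g ^ 4 * (F ^ 2 - (l ^ 4 * D ^ 2 + l ^ 2 * (l ^ 2 - 1) * g ^ 2)) = 0 := by
      linear_combination -h2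
    have h5 : g ^ 4 ≠ 0 := by positivity
    have := (mul_eq_zero.1 h4).resolve_left h5
    linarith
  by_contra hF
  push Not at hF
  have hD : F ^ 2 ≤ l ^ 2 * D ^ 2 := by
    have := pow_le_pow_left₀ hF hle 2
    nlinarith [this]
  have h6 : 0 < l ^ 2 * (l ^ 2 - 1) * g ^ 2 := by
    have : 0 < l ^ 2 - 1 := by nlinarith
    positivity
  have h7 : l ^ 2 * D ^ 2 ≤ l ^ 4 * D ^ 2 := by
    have : l ^ 2 ≤ l ^ 4 := by nlinarith [sq_nonneg (l ^ 2 - 1)]
    exact mul_le_mul_of_nonneg_right this (sq_nonneg D)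
  linarith

lemma frontier_neg (K : Set E) : frontier (-K) = -frontier K := by
  have := (Homeomorph.neg E).preimage_frontier K
  exact this.symm

lemma sec_neg {τ : ℝ} :
    μH[1] (frontier (-K) ∩ sec u v τ) =
      μH[1] (frontier K ∩ ({x | ⟪x, v⟫ < 0} ∩ {x | ⟪x, τ • u - v⟫ < 0})) := by
  rw [← (IsometryEquiv.neg E).hausdorffMeasure_preimage]
  congr 1
  ext x
  simp only [frontier_neg, sec, mem_preimage, mem_inter_iff, mem_ofPred_eq, IsometryEquiv.neg_apply,
    Set.mem_neg, neg_neg, inner_neg_left, Left.neg_pos_iff]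

lemma len_eq (hK : Convex ℝ K) (h0 : K ∈ 𝓝 (0 : E)) (hb : Bornology.IsBounded K)
    (hbis : ∀ n : E, n ≠ 0 → μH[1] (frontier K ∩ {x | 0 < ⟪x, n⟫}) =
      μH[1] (frontier K ∩ {x | ⟪x, n⟫ < 0}))
    (hu : ‖u‖ = 1) (hv : ‖v‖ = 1) (huv : ⟪u, v⟫ = 0)
    (hexp : ∀ x : E, x = ⟪x, u⟫ • u + ⟪x, v⟫ • v) {D F : ℝ}
    (hD : HasDerivWithinAt (fun t : ℝ => gauge K (u + t • v)) D (Ioi 0) 0)
    (hF : HasDerivWithinAt (fun t : ℝ => gauge K (-(u + t • v))) F (Ioi 0) 0) :
    Phi (D, 0, gauge K u, gauge K u) = Phi (F, 0, gauge K (-u), gauge K (-u)) := by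
  have hK' : Convex ℝ (-K) := hK.neg
  have h0' : -K ∈ 𝓝 (0 : E) := by
    have := (continuous_neg (G := E)).tendsto 0
    rw [neg_zero] at this
    exact this h0
  have hb' : Bornology.IsBounded (-K) := by
    have h := (isometry_neg (G := E)).lipschitz.isBounded_image hb
    rwa [Set.image_neg_eq_neg] at h
  have hF' : HasDerivWithinAt (fun t : ℝ => gauge (-K) (u + t • v)) F (Ioi 0) 0 := by
    refine hF.congr (fun t _ => gauge_neg_set_eq_gauge_neg _) (gauge_neg_set_eq_gauge_neg _)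
  have hgu : gauge (-K) u = gauge K (-u) := gauge_neg_set_eq_gauge_neg _
  have hv0 : v ≠ 0 := by
    rintro rfl; rw [norm_zero] at hv; exact zero_ne_one hv
  have hn2 : ∀ τ : ℝ, τ • u - v ≠ 0 := by
    intro τ h
    have : ⟪τ • u - v, v⟫ = 0 := by rw [h, inner_zero_left]
    rw [inner_sub_left, inner_smul_left, huv, real_inner_self_eq_norm_sq, hv] at this
    simp at this
  have bal : ∀ τ : ℝ, μH[1] (frontier K ∩ sec u v τ) = μH[1] (frontier (-K) ∩ sec u v τ) := by
    intro τ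
    rw [sec_neg]
    exact sector_balance hK h0 hb hbis hv0 (hn2 τ)
  set a := Phi (D, 0, gauge K u, gauge K u) with ha
  set b := Phi (F, 0, gauge K (-u), gauge K (-u)) with hb2
  have haux : ∀ {x y : ℝ}, 0 ≤ y → (∀ ε : ℝ, 0 < ε → ∀ᶠ τ in 𝓝[>] (0 : ℝ),
      ENNReal.ofReal ((x - ε) * τ) ≤ ENNReal.ofReal ((y + ε) * τ)) → x ≤ y := by
    intro x y hy h
    refine le_of_forall_pos_le_add fun ε hε => ?_
    obtain ⟨τ, h1, h2⟩ := ((h (ε / 2) (by positivity)).and
      (self_mem_nhdsWithin : ∀ᶠ τ in 𝓝[>] (0 : ℝ), τ ∈ Ioi (0 : ℝ))).exists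
    have h3 := (ENNReal.ofReal_le_ofReal_iff (by positivity)).1 h1
    have h4 := le_of_mul_le_mul_right h3 h2
    linarith
  have hPnn : ∀ D g : ℝ, 0 ≤ Phi (D, 0, g, g) := fun D g => by rw [phi_eq]; positivity
  refine le_antisymm ?_ ?_
  · refine haux (hPnn _ _) fun ε hε => ?_
    have e1 := lower hK h0 hb hu hv huv hexp hD hε
    have e2 := upper hK' h0' hb' hu hv huv hexp hF' hε
    rw [hgu] at e2
    filter_upwards [e1, e2] with τ h1 h2
    exact h1.trans ((bal τ).le.trans h2)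
  · refine haux (hPnn _ _) fun ε hε => ?_
    have e1 := lower hK' h0' hb' hu hv huv hexp hF' hε
    have e2 := upper hK h0 hb hu hv huv hexp hD hε
    rw [hgu] at e1
    filter_upwards [e1, e2] with τ h1 h2
    exact h1.trans ((bal τ).ge.trans h2)

lemma tslope {G : ℝ → ℝ} {D : ℝ} (hD : HasDerivWithinAt G D (Ioi 0) 0) :
    Tendsto (fun t : ℝ => (G t - G 0) / t) (𝓝[>] 0) (𝓝 D) := by
  have := (hasDerivWithinAt_iff_tendsto_slope' (self_notMem_Ioi)).mp hD
  refine this.congr (fun t => ?_)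
  rw [slope_def_field, sub_zero]

lemma deriv_neg (hK : Convex ℝ K) (h0 : K ∈ 𝓝 (0 : E)) (hb : Bornology.IsBounded K)
    (hbis : ∀ n : E, n ≠ 0 → μH[1] (frontier K ∩ {x | 0 < ⟪x, n⟫}) =
      μH[1] (frontier K ∩ {x | ⟪x, n⟫ < 0}))
    (hu : ‖u‖ = 1) (hv : ‖v‖ = 1) (huv : ⟪u, v⟫ = 0)
    (hexp : ∀ x : E, x = ⟪x, u⟫ • u + ⟪x, v⟫ • v) {l : ℝ} (hl : 1 < l)
    (hle : ∀ x, gauge K (-x) ≤ l * gauge K x) (heq : gauge K (-u) = l * gauge K u) {F : ℝ}
    (hF : HasDerivWithinAt (fun t : ℝ => gauge K (-(u + t • v))) F (Ioi 0) 0) : F < 0 := by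
  have hconv := conv_gauge hK h0 u v
  obtain ⟨D, hD⟩ : ∃ D, HasDerivWithinAt (fun t : ℝ => gauge K (u + t • v)) D (Ioi 0) 0 :=
    ⟨_, hconv.hasDerivWithinAt_rightDeriv_of_mem_interior (by simp)⟩
  have h1 := len_eq hK h0 hb hbis hu hv huv hexp hD hF
  rw [phi_eq, phi_eq, heq] at h1
  have hu0 : u ≠ 0 := by
    rintro rfl; rw [norm_zero] at hu; exact zero_ne_one hu
  refine algebra_neg (g_pos h0 hb hu0) hl h1 ?_
  have t1 := (tslope hD).const_mul l
  have t2 := tslope hF
  refine le_of_tendsto_of_tendsto t2 t1 ?_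
  filter_upwards [self_mem_nhdsWithin] with t ht
  simp only [mem_Ioi] at ht
  simp only [zero_smul, add_zero]
  rw [← mul_div_assoc, div_le_div_iff_of_pos_right ht, heq]
  have := hle (u + t • v)
  linarith

/-- The main step, for a curve around the origin. -/
theorem core (hK : Convex ℝ K) (h0 : K ∈ 𝓝 (0 : E)) (hb : Bornology.IsBounded K)
    (hbis : ∀ n : E, n ≠ 0 → μH[1] (frontier K ∩ {x | 0 < ⟪x, n⟫}) =
      μH[1] (frontier K ∩ {x | ⟪x, n⟫ < 0})) (x : E) : gauge K (-x) = gauge K x := by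
  have hgc := continuous_gauge hK h0
  have hsph : IsCompact (sphere (0 : E) 1) := isCompact_sphere _ _
  have hne : (sphere (0 : E) 1).Nonempty := NormedSpace.sphere_nonempty.2 zero_le_one
  have hpos : ∀ y ∈ sphere (0 : E) 1, 0 < gauge K y := fun y hy => by
    refine g_pos h0 hb ?_
    rintro rfl
    simp at hy
  have hcont : ContinuousOn (fun y => gauge K (-y) / gauge K y) (sphere (0 : E) 1) := by
    refine ContinuousOn.div (hgc.comp continuous_neg).continuousOn hgc.continuousOn ?_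
    intro y hy
    exact (hpos y hy).ne'
  obtain ⟨u, hu, humax⟩ := hsph.exists_isMaxOn hne hcont
  set l := gauge K (-u) / gauge K u with hl
  have hle1 : ∀ y ∈ sphere (0 : E) 1, gauge K (-y) ≤ l * gauge K y := fun y hy => by
    have := humax hy
    simp only [mem_ofPred_eq] at this
    rwa [← hl, div_le_iff₀ (hpos y hy)] at this
  have scale : ∀ y : E, y ≠ 0 → ∃ z ∈ sphere (0 : E) 1, y = ‖y‖ • z := fun y hy =>
    ⟨‖y‖⁻¹ • y, by
      rw [mem_sphere_zero_iff_norm, norm_smul, norm_inv, norm_norm]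
      exact inv_mul_cancel₀ (norm_ne_zero_iff.2 hy), by
      rw [smul_smul, mul_inv_cancel₀ (norm_ne_zero_iff.2 hy), one_smul]⟩
  have hg : ∀ (c : ℝ), 0 ≤ c → ∀ y : E, gauge K (c • y) = c * gauge K y := fun c hc y => by
    rw [gauge_smul_of_nonneg hc]; rfl
  have hle : ∀ y : E, gauge K (-y) ≤ l * gauge K y := by
    intro y
    rcases eq_or_ne y 0 with rfl | hy
    · simp [gauge_zero]
    · obtain ⟨z, hz, e⟩ := scale y hy
      rw [e, ← smul_neg, hg _ (norm_nonneg _), hg _ (norm_nonneg _)]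
      have := mul_le_mul_of_nonneg_left (hle1 z hz) (norm_nonneg y)
      linarith
  rcases le_or_gt l 1 with hl1 | hl1
  · have : ∀ y, gauge K (-y) ≤ gauge K y := fun y =>
      (hle y).trans (by nlinarith [gauge_nonneg (s := K) y])
    refine le_antisymm (this x) ?_
    have h2 := this (-x)
    rwa [neg_neg] at h2
  · exfalso
    have hu1 : ‖u‖ = 1 := mem_sphere_zero_iff_norm.1 hu
    have heq : gauge K (-u) = l * gauge K u := by
      rw [hl, div_mul_cancel₀ _ (hpos u hu).ne']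
    have hconvH : ConvexOn ℝ univ (fun t : ℝ => gauge K (-(u + t • rot u))) := by
      have := conv_gauge hK h0 (-u) (-rot u)
      refine this.congr (fun t _ => ?_)
      dsimp only
      congr 1
      module
    have hconvH' : ConvexOn ℝ univ (fun t : ℝ => gauge K (-(u + t • (-rot u)))) := by
      have := conv_gauge hK h0 (-u) (rot u)
      refine this.congr (fun t _ => ?_)
      dsimp only
      congr 1
      module
    obtain ⟨F₁, hF₁⟩ : ∃ D, HasDerivWithinAt (fun t : ℝ => gauge K (-(u + t • rot u))) D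
        (Ioi 0) 0 := ⟨_, hconvH.hasDerivWithinAt_rightDeriv_of_mem_interior (by simp)⟩
    obtain ⟨F₂, hF₂⟩ : ∃ D, HasDerivWithinAt (fun t : ℝ => gauge K (-(u + t • (-rot u)))) D
        (Ioi 0) 0 := ⟨_, hconvH'.hasDerivWithinAt_rightDeriv_of_mem_interior (by simp)⟩
    have n1 := deriv_neg hK h0 hb hbis hu1 ((norm_rot u).trans hu1) (inner_rot u) (expand hu1) hl1
      hle heq hF₁
    have n2 := deriv_neg hK h0 hb hbis hu1 ((norm_neg _).trans ((norm_rot u).trans hu1))
      (by rw [inner_neg_right, inner_rot, neg_zero]) (expand' hu1) hl1 hle heq hF₂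
    have t := (tslope hF₁).add (tslope hF₂)
    have : 0 ≤ F₁ + F₂ := by
      refine ge_of_tendsto t ?_
      filter_upwards [self_mem_nhdsWithin] with t ht
      simp only [mem_Ioi] at ht
      simp only [zero_smul, add_zero]
      rw [← add_div]
      refine div_nonneg ?_ ht.le
      have h5 := gauge_add_le hK (absorbent_nhds_zero h0) (-(u + t • rot u))
        (-(u + t • (-rot u)))
      have e : -(u + t • rot u) + -(u + t • (-rot u)) = (2 : ℝ) • (-u) := by module
      rw [e, hg 2 (by norm_num)] at h5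
      linarith
    linarith

lemma meets_frontier {A : Set E} (hA : IsPreconnected A) (h1 : (A ∩ K).Nonempty)
    (h2 : (A ∩ Kᶜ).Nonempty) : (A ∩ frontier K).Nonempty := by
  by_contra hne
  rw [not_nonempty_iff_eq_empty] at hne
  have hout : ∀ x ∈ A, x ∉ frontier K := fun x hx hx' => by
    have : x ∈ A ∩ frontier K := ⟨hx, hx'⟩
    rw [hne] at this; exact this
  obtain ⟨x, hx, hxK⟩ := h1
  obtain ⟨y, hy, hyK⟩ := h2
  have hint : x ∈ interior K := by
    by_contra h; exact hout x hx ⟨subset_closure hxK, h⟩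
  have hcl : y ∈ (closure K)ᶜ := fun h => hout y hy ⟨h, fun h' => hyK (interior_subset h')⟩
  obtain ⟨w, hw, hw1, hw2⟩ := hA (interior K) (closure K)ᶜ isOpen_interior
    isClosed_closure.isOpen_compl (fun w hw => by
      by_cases h : w ∈ interior K
      · exact Or.inl h
      · exact Or.inr fun h' => hout w hw ⟨h', h⟩) ⟨x, hx, hint⟩ ⟨y, hy, hcl⟩
  exact hw2 (subset_closure (interior_subset hw1))

/-- The point is an interior point. -/
lemma mem_interior_of_bisects (hKc : IsCompact K) (hK : Convex ℝ K) (hi : (interior K).Nonempty)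
    (hbis : ∀ n : E, n ≠ 0 → μH[1] (frontier K ∩ {x | 0 < ⟪x, n⟫}) =
      μH[1] (frontier K ∩ {x | ⟪x, n⟫ < 0})) : (0 : E) ∈ interior K := by
  by_contra h0
  obtain ⟨f, hf⟩ := geometric_hahn_banach_open_point hK.interior isOpen_interior h0
  set n : E := (InnerProductSpace.toDual ℝ E).symm f with hn
  have hfn : ∀ x, f x = ⟪x, n⟫ := fun x => by
    rw [real_inner_comm, hn, InnerProductSpace.toDual_symm_apply]
  rw [map_zero] at hf
  obtain ⟨z, hz⟩ := hi
  have hzn : ⟪z, n⟫ < 0 := by rw [← hfn]; exact hf z hz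
  have hn0 : n ≠ 0 := by
    rintro h; rw [h, inner_zero_right] at hzn; exact lt_irrefl _ hzn
  have hle : ∀ x ∈ K, ⟪x, n⟫ ≤ 0 := by
    intro x hx
    have hx' : x ∈ closure (interior K) := by
      rw [hK.closure_interior_eq_closure_of_nonempty_interior ⟨z, hz⟩]
      exact subset_closure hx
    have hc : IsClosed {x : E | ⟪x, n⟫ ≤ 0} :=
      isClosed_le (by fun_prop) continuous_const
    refine closure_minimal (fun y hy => ?_) hc hx'
    simp only [mem_ofPred_eq]
    rw [← hfn]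
    exact (hf y hy).le
  have hempty : frontier K ∩ {x | 0 < ⟪x, n⟫} = ∅ := by
    ext x
    simp only [mem_inter_iff, mem_ofPred_eq, mem_empty_iff_false, iff_false, not_and, not_lt]
    intro hx
    exact hle x (hKc.isClosed.frontier_subset hx)
  have hzero : μH[1] (frontier K ∩ {x | ⟪x, n⟫ < 0}) = 0 := by
    rw [← hbis n hn0, hempty, measure_empty]
  obtain ⟨r, hr, hball⟩ := Metric.isOpen_iff.1 isOpen_interior z hz
  set w : E := rot (‖n‖⁻¹ • n) with hw
  have hnn : ‖‖n‖⁻¹ • n‖ = 1 := by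
    rw [norm_smul, norm_inv, norm_norm]; exact inv_mul_cancel₀ (norm_ne_zero_iff.2 hn0)
  have hwn : ‖w‖ = 1 := (norm_rot _).trans hnn
  have hnw : ⟪n, w⟫ = 0 := by
    have := inner_rot (‖n‖⁻¹ • n)
    rw [inner_smul_left, ← hw] at this
    have h3 : (starRingEnd ℝ) ‖n‖⁻¹ ≠ 0 := by
      simpa using hn0
    exact (mul_eq_zero.1 this).resolve_left h3
  have hwn' : ⟪w, n⟫ = 0 := by rw [real_inner_comm]; exact hnw
  let g : E → ℝ := fun x => ⟪x, w⟫
  have hg : LipschitzWith 1 g := by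
    refine LipschitzWith.of_dist_le_mul (fun x y => ?_)
    rw [Real.dist_eq]
    have : g x - g y = ⟪x - y, w⟫ := by
      simp only [g]; rw [← inner_sub_left]
    rw [this, NNReal.coe_one, one_mul, dist_eq_norm]
    refine (abs_real_inner_le_norm _ _).trans ?_
    rw [hwn, mul_one]
  have hsub : Ioo (⟪z, w⟫ - r) (⟪z, w⟫ + r) ⊆ g '' (frontier K ∩ {x | ⟪x, n⟫ < 0}) := by
    intro s hs
    set y : E := z + (s - ⟪z, w⟫) • w with hy
    have hyK : y ∈ interior K := by
      refine hball ?_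
      rw [mem_ball, dist_eq_norm, hy, add_sub_cancel_left, norm_smul, hwn, mul_one,
        Real.norm_eq_abs, abs_lt]
      constructor <;> linarith [hs.1, hs.2]
    have hyn : ⟪y, n⟫ < 0 := by rw [← hfn]; exact hf y hyK
    set ray : Set E := (fun t : ℝ => y - t • n) '' Ici 0 with hray
    have hpre : IsPreconnected ray :=
      isPreconnected_Ici.image _ (by fun_prop)
    obtain ⟨R, hR⟩ := hKc.isBounded.subset_closedBall 0
    have h1 : (ray ∩ K).Nonempty :=
      ⟨y, ⟨0, (le_refl (0:ℝ) : (0:ℝ) ∈ Ici (0:ℝ)), by simp⟩, interior_subset hyK⟩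
    have h2 : (ray ∩ Kᶜ).Nonempty := by
      set t : ℝ := (|R| + ‖y‖ + 1) / ‖n‖ with ht
      have hnpos : 0 < ‖n‖ := norm_pos_iff.2 hn0
      refine ⟨y - t • n, ⟨t, by simp only [mem_Ici]; positivity, rfl⟩, fun hmem => ?_⟩
      have h3 := hR hmem
      rw [mem_closedBall_zero_iff] at h3
      have h4 : ‖t • n‖ ≤ ‖y - t • n‖ + ‖y‖ := by
        have := norm_sub_le (y - t • n) y
        have e : y - t • n - y = -(t • n) := by abel
        rwa [e, norm_neg] at this
      rw [norm_smul, Real.norm_eq_abs, abs_of_nonneg (by positivity), ht,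
        div_mul_cancel₀ _ hnpos.ne'] at h4
      have := le_abs_self R
      linarith
    obtain ⟨p, ⟨t, ht, rfl⟩, hp2⟩ := meets_frontier hpre h1 h2
    simp only [mem_Ici] at ht
    refine ⟨y - t • n, ⟨hp2, ?_⟩, ?_⟩
    · simp only [mem_ofPred_eq, inner_sub_left, inner_smul_left, real_inner_self_eq_norm_sq,
        conj_trivial]
      have : 0 ≤ t * ‖n‖ ^ 2 := by positivity
      linarith
    · simp only [g, inner_sub_left, inner_smul_left, hnw, hy, inner_add_left,
        real_inner_self_eq_norm_sq, hwn, conj_trivial]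
      ring
  have h5 := hg.hausdorffMeasure_image_le (d := 1) zero_le_one (frontier K ∩ {x | ⟪x, n⟫ < 0})
  rw [hzero, mul_zero] at h5
  have h6 : μH[1] (Ioo (⟪z, w⟫ - r) (⟪z, w⟫ + r)) ≤ 0 := (measure_mono hsub).trans h5
  rw [hausdorffMeasure_real, Real.volume_Ioo] at h6
  have h7 : (0 : ℝ≥0∞) < ENNReal.ofReal (⟪z, w⟫ + r - (⟪z, w⟫ - r)) := by
    rw [ENNReal.ofReal_pos]; linarith
  exact absurd h6 (not_le.2 h7)

end Pool.Agent.V5helper80.Klam
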